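import Mathlib

/-!
# The combinatorial contradiction
-/

namespace Pool.Agent.L0h84.DK

open Equiv

/-- the 24 permutations of `Fin 4` -/
def c : Fin 24 → Perm (Fin 4) :=
  ![1,
    (swap 0 1 * swap 2 3),
    (swap 0 2 * swap 1 3),
    (swap 0 3 * swap 1 2),
    swap 0 1 * swap 1 2,
    swap 0 1 * swap 1 2 * (swap 0 1 * swap 2 3),
    swap 0 1 * swap 1 2 * (swap 0 2 * swap 1 3),
    swap 0 1 * swap 1 2 * (swap 0 3 * swap 1 2),
    swap 1 2 * swap 0 1,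
    swap 1 2 * swap 0 1 * (swap 0 1 * swap 2 3),
    swap 1 2 * swap 0 1 * (swap 0 2 * swap 1 3),
    swap 1 2 * swap 0 1 * (swap 0 3 * swap 1 2),
    swap 0 1,
    swap 0 1 * (swap 0 1 * swap 2 3),
    swap 0 1 * (swap 0 2 * swap 1 3),
    swap 0 1 * (swap 0 3 * swap 1 2),
    swap 0 2,
    swap 0 2 * (swap 0 1 * swap 2 3),
    swap 0 2 * (swap 0 2 * swap 1 3),
    swap 0 2 * (swap 0 3 * swap 1 2),
    swap 1 2,
    swap 1 2 * (swap 0 1 * swap 2 3),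
    swap 1 2 * (swap 0 2 * swap 1 3),
    swap 1 2 * (swap 0 3 * swap 1 2)]

theorem comb (f : Perm (Fin 4) → ℤ)
    (hsq : ∀ π α : Perm (Fin 4), f π - f (π * swap (α 0) (α 1)) - f (π * swap (α 2) (α 3))
      + f (π * swap (α 0) (α 1) * swap (α 2) (α 3)) = 0)
    (hev : ∀ π : Perm (Fin 4), Perm.sign π = 1 → ∃ k : ℤ, f π = 2 * k)
    (hod : ∀ π : Perm (Fin 4), Perm.sign π = -1 → ∃ k : ℤ, f π = 2 * k + 1) : False := by
  have h0 : f (c 0) - f (c 12) - f (c 13) + f (c 1) = 0 := by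
    have h := hsq (c 0) (1 : Perm (Fin 4))
    rwa [show c 0 * swap ((1 : Perm (Fin 4)) 0) ((1 : Perm (Fin 4)) 1) * swap ((1 : Perm (Fin 4)) 2) ((1 : Perm (Fin 4)) 3) = c 1 from by decide,
      show c 0 * swap ((1 : Perm (Fin 4)) 0) ((1 : Perm (Fin 4)) 1) = c 12 from by decide,
      show c 0 * swap ((1 : Perm (Fin 4)) 2) ((1 : Perm (Fin 4)) 3) = c 13 from by decide] at h
  have h1 : f (c 0) - f (c 16) - f (c 18) + f (c 2) = 0 := by
    have h := hsq (c 0) (swap 1 2 : Perm (Fin 4))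
    rwa [show c 0 * swap ((swap 1 2 : Perm (Fin 4)) 0) ((swap 1 2 : Perm (Fin 4)) 1) * swap ((swap 1 2 : Perm (Fin 4)) 2) ((swap 1 2 : Perm (Fin 4)) 3) = c 2 from by decide,
      show c 0 * swap ((swap 1 2 : Perm (Fin 4)) 0) ((swap 1 2 : Perm (Fin 4)) 1) = c 16 from by decide,
      show c 0 * swap ((swap 1 2 : Perm (Fin 4)) 2) ((swap 1 2 : Perm (Fin 4)) 3) = c 18 from by decide] at h
  have h2 : f (c 0) - f (c 23) - f (c 20) + f (c 3) = 0 := by
    have h := hsq (c 0) (swap 1 3 : Perm (Fin 4))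
    rwa [show c 0 * swap ((swap 1 3 : Perm (Fin 4)) 0) ((swap 1 3 : Perm (Fin 4)) 1) * swap ((swap 1 3 : Perm (Fin 4)) 2) ((swap 1 3 : Perm (Fin 4)) 3) = c 3 from by decide,
      show c 0 * swap ((swap 1 3 : Perm (Fin 4)) 0) ((swap 1 3 : Perm (Fin 4)) 1) = c 23 from by decide,
      show c 0 * swap ((swap 1 3 : Perm (Fin 4)) 2) ((swap 1 3 : Perm (Fin 4)) 3) = c 20 from by decide] at h
  have h3 : f (c 1) - f (c 19) - f (c 17) + f (c 3) = 0 := by
    have h := hsq (c 1) (swap 1 2 : Perm (Fin 4))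
    rwa [show c 1 * swap ((swap 1 2 : Perm (Fin 4)) 0) ((swap 1 2 : Perm (Fin 4)) 1) * swap ((swap 1 2 : Perm (Fin 4)) 2) ((swap 1 2 : Perm (Fin 4)) 3) = c 3 from by decide,
      show c 1 * swap ((swap 1 2 : Perm (Fin 4)) 0) ((swap 1 2 : Perm (Fin 4)) 1) = c 19 from by decide,
      show c 1 * swap ((swap 1 2 : Perm (Fin 4)) 2) ((swap 1 2 : Perm (Fin 4)) 3) = c 17 from by decide] at h
  have h4 : f (c 1) - f (c 21) - f (c 22) + f (c 2) = 0 := by
    have h := hsq (c 1) (swap 1 3 : Perm (Fin 4))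
    rwa [show c 1 * swap ((swap 1 3 : Perm (Fin 4)) 0) ((swap 1 3 : Perm (Fin 4)) 1) * swap ((swap 1 3 : Perm (Fin 4)) 2) ((swap 1 3 : Perm (Fin 4)) 3) = c 2 from by decide,
      show c 1 * swap ((swap 1 3 : Perm (Fin 4)) 0) ((swap 1 3 : Perm (Fin 4)) 1) = c 21 from by decide,
      show c 1 * swap ((swap 1 3 : Perm (Fin 4)) 2) ((swap 1 3 : Perm (Fin 4)) 3) = c 22 from by decide] at h
  have h5 : f (c 2) - f (c 15) - f (c 14) + f (c 3) = 0 := by
    have h := hsq (c 2) (1 : Perm (Fin 4))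
    rwa [show c 2 * swap ((1 : Perm (Fin 4)) 0) ((1 : Perm (Fin 4)) 1) * swap ((1 : Perm (Fin 4)) 2) ((1 : Perm (Fin 4)) 3) = c 3 from by decide,
      show c 2 * swap ((1 : Perm (Fin 4)) 0) ((1 : Perm (Fin 4)) 1) = c 15 from by decide,
      show c 2 * swap ((1 : Perm (Fin 4)) 2) ((1 : Perm (Fin 4)) 3) = c 14 from by decide] at h
  have h6 : f (c 4) - f (c 16) - f (c 17) + f (c 5) = 0 := by
    have h := hsq (c 4) (1 : Perm (Fin 4))
    rwa [show c 4 * swap ((1 : Perm (Fin 4)) 0) ((1 : Perm (Fin 4)) 1) * swap ((1 : Perm (Fin 4)) 2) ((1 : Perm (Fin 4)) 3) = c 5 from by decide,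
      show c 4 * swap ((1 : Perm (Fin 4)) 0) ((1 : Perm (Fin 4)) 1) = c 16 from by decide,
      show c 4 * swap ((1 : Perm (Fin 4)) 2) ((1 : Perm (Fin 4)) 3) = c 17 from by decide] at h
  have h7 : f (c 4) - f (c 20) - f (c 22) + f (c 6) = 0 := by
    have h := hsq (c 4) (swap 1 2 : Perm (Fin 4))
    rwa [show c 4 * swap ((swap 1 2 : Perm (Fin 4)) 0) ((swap 1 2 : Perm (Fin 4)) 1) * swap ((swap 1 2 : Perm (Fin 4)) 2) ((swap 1 2 : Perm (Fin 4)) 3) = c 6 from by decide,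
      show c 4 * swap ((swap 1 2 : Perm (Fin 4)) 0) ((swap 1 2 : Perm (Fin 4)) 1) = c 20 from by decide,
      show c 4 * swap ((swap 1 2 : Perm (Fin 4)) 2) ((swap 1 2 : Perm (Fin 4)) 3) = c 22 from by decide] at h
  have h8 : f (c 4) - f (c 15) - f (c 12) + f (c 7) = 0 := by
    have h := hsq (c 4) (swap 1 3 : Perm (Fin 4))
    rwa [show c 4 * swap ((swap 1 3 : Perm (Fin 4)) 0) ((swap 1 3 : Perm (Fin 4)) 1) * swap ((swap 1 3 : Perm (Fin 4)) 2) ((swap 1 3 : Perm (Fin 4)) 3) = c 7 from by decide,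
      show c 4 * swap ((swap 1 3 : Perm (Fin 4)) 0) ((swap 1 3 : Perm (Fin 4)) 1) = c 15 from by decide,
      show c 4 * swap ((swap 1 3 : Perm (Fin 4)) 2) ((swap 1 3 : Perm (Fin 4)) 3) = c 12 from by decide] at h
  have h9 : f (c 5) - f (c 23) - f (c 21) + f (c 7) = 0 := by
    have h := hsq (c 5) (swap 1 2 : Perm (Fin 4))
    rwa [show c 5 * swap ((swap 1 2 : Perm (Fin 4)) 0) ((swap 1 2 : Perm (Fin 4)) 1) * swap ((swap 1 2 : Perm (Fin 4)) 2) ((swap 1 2 : Perm (Fin 4)) 3) = c 7 from by decide,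
      show c 5 * swap ((swap 1 2 : Perm (Fin 4)) 0) ((swap 1 2 : Perm (Fin 4)) 1) = c 23 from by decide,
      show c 5 * swap ((swap 1 2 : Perm (Fin 4)) 2) ((swap 1 2 : Perm (Fin 4)) 3) = c 21 from by decide] at h
  have h10 : f (c 5) - f (c 13) - f (c 14) + f (c 6) = 0 := by
    have h := hsq (c 5) (swap 1 3 : Perm (Fin 4))
    rwa [show c 5 * swap ((swap 1 3 : Perm (Fin 4)) 0) ((swap 1 3 : Perm (Fin 4)) 1) * swap ((swap 1 3 : Perm (Fin 4)) 2) ((swap 1 3 : Perm (Fin 4)) 3) = c 6 from by decide,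
      show c 5 * swap ((swap 1 3 : Perm (Fin 4)) 0) ((swap 1 3 : Perm (Fin 4)) 1) = c 13 from by decide,
      show c 5 * swap ((swap 1 3 : Perm (Fin 4)) 2) ((swap 1 3 : Perm (Fin 4)) 3) = c 14 from by decide] at h
  have h11 : f (c 6) - f (c 19) - f (c 18) + f (c 7) = 0 := by
    have h := hsq (c 6) (1 : Perm (Fin 4))
    rwa [show c 6 * swap ((1 : Perm (Fin 4)) 0) ((1 : Perm (Fin 4)) 1) * swap ((1 : Perm (Fin 4)) 2) ((1 : Perm (Fin 4)) 3) = c 7 from by decide,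
      show c 6 * swap ((1 : Perm (Fin 4)) 0) ((1 : Perm (Fin 4)) 1) = c 19 from by decide,
      show c 6 * swap ((1 : Perm (Fin 4)) 2) ((1 : Perm (Fin 4)) 3) = c 18 from by decide] at h
  have h12 : f (c 8) - f (c 20) - f (c 21) + f (c 9) = 0 := by
    have h := hsq (c 8) (1 : Perm (Fin 4))
    rwa [show c 8 * swap ((1 : Perm (Fin 4)) 0) ((1 : Perm (Fin 4)) 1) * swap ((1 : Perm (Fin 4)) 2) ((1 : Perm (Fin 4)) 3) = c 9 from by decide,
      show c 8 * swap ((1 : Perm (Fin 4)) 0) ((1 : Perm (Fin 4)) 1) = c 20 from by decide,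
      show c 8 * swap ((1 : Perm (Fin 4)) 2) ((1 : Perm (Fin 4)) 3) = c 21 from by decide] at h
  have h13 : f (c 8) - f (c 12) - f (c 14) + f (c 10) = 0 := by
    have h := hsq (c 8) (swap 1 2 : Perm (Fin 4))
    rwa [show c 8 * swap ((swap 1 2 : Perm (Fin 4)) 0) ((swap 1 2 : Perm (Fin 4)) 1) * swap ((swap 1 2 : Perm (Fin 4)) 2) ((swap 1 2 : Perm (Fin 4)) 3) = c 10 from by decide,
      show c 8 * swap ((swap 1 2 : Perm (Fin 4)) 0) ((swap 1 2 : Perm (Fin 4)) 1) = c 12 from by decide,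
      show c 8 * swap ((swap 1 2 : Perm (Fin 4)) 2) ((swap 1 2 : Perm (Fin 4)) 3) = c 14 from by decide] at h
  have h14 : f (c 8) - f (c 19) - f (c 16) + f (c 11) = 0 := by
    have h := hsq (c 8) (swap 1 3 : Perm (Fin 4))
    rwa [show c 8 * swap ((swap 1 3 : Perm (Fin 4)) 0) ((swap 1 3 : Perm (Fin 4)) 1) * swap ((swap 1 3 : Perm (Fin 4)) 2) ((swap 1 3 : Perm (Fin 4)) 3) = c 11 from by decide,
      show c 8 * swap ((swap 1 3 : Perm (Fin 4)) 0) ((swap 1 3 : Perm (Fin 4)) 1) = c 19 from by decide,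
      show c 8 * swap ((swap 1 3 : Perm (Fin 4)) 2) ((swap 1 3 : Perm (Fin 4)) 3) = c 16 from by decide] at h
  have h15 : f (c 9) - f (c 15) - f (c 13) + f (c 11) = 0 := by
    have h := hsq (c 9) (swap 1 2 : Perm (Fin 4))
    rwa [show c 9 * swap ((swap 1 2 : Perm (Fin 4)) 0) ((swap 1 2 : Perm (Fin 4)) 1) * swap ((swap 1 2 : Perm (Fin 4)) 2) ((swap 1 2 : Perm (Fin 4)) 3) = c 11 from by decide,
      show c 9 * swap ((swap 1 2 : Perm (Fin 4)) 0) ((swap 1 2 : Perm (Fin 4)) 1) = c 15 from by decide,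
      show c 9 * swap ((swap 1 2 : Perm (Fin 4)) 2) ((swap 1 2 : Perm (Fin 4)) 3) = c 13 from by decide] at h
  have h16 : f (c 9) - f (c 17) - f (c 18) + f (c 10) = 0 := by
    have h := hsq (c 9) (swap 1 3 : Perm (Fin 4))
    rwa [show c 9 * swap ((swap 1 3 : Perm (Fin 4)) 0) ((swap 1 3 : Perm (Fin 4)) 1) * swap ((swap 1 3 : Perm (Fin 4)) 2) ((swap 1 3 : Perm (Fin 4)) 3) = c 10 from by decide,
      show c 9 * swap ((swap 1 3 : Perm (Fin 4)) 0) ((swap 1 3 : Perm (Fin 4)) 1) = c 17 from by decide,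
      show c 9 * swap ((swap 1 3 : Perm (Fin 4)) 2) ((swap 1 3 : Perm (Fin 4)) 3) = c 18 from by decide] at h
  have h17 : f (c 10) - f (c 23) - f (c 22) + f (c 11) = 0 := by
    have h := hsq (c 10) (1 : Perm (Fin 4))
    rwa [show c 10 * swap ((1 : Perm (Fin 4)) 0) ((1 : Perm (Fin 4)) 1) * swap ((1 : Perm (Fin 4)) 2) ((1 : Perm (Fin 4)) 3) = c 11 from by decide,
      show c 10 * swap ((1 : Perm (Fin 4)) 0) ((1 : Perm (Fin 4)) 1) = c 23 from by decide,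
      show c 10 * swap ((1 : Perm (Fin 4)) 2) ((1 : Perm (Fin 4)) 3) = c 22 from by decide] at h
  obtain ⟨k0, e0⟩ := hev (c 0) (by decide)
  obtain ⟨k1, e1⟩ := hev (c 1) (by decide)
  obtain ⟨k2, e2⟩ := hev (c 2) (by decide)
  obtain ⟨k3, e3⟩ := hev (c 3) (by decide)
  obtain ⟨k4, e4⟩ := hev (c 4) (by decide)
  obtain ⟨k5, e5⟩ := hev (c 5) (by decide)
  obtain ⟨k6, e6⟩ := hev (c 6) (by decide)
  obtain ⟨k7, e7⟩ := hev (c 7) (by decide)
  obtain ⟨k8, e8⟩ := hev (c 8) (by decide)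
  obtain ⟨k9, e9⟩ := hev (c 9) (by decide)
  obtain ⟨k10, e10⟩ := hev (c 10) (by decide)
  obtain ⟨k11, e11⟩ := hev (c 11) (by decide)
  obtain ⟨k12, e12⟩ := hod (c 12) (by decide)
  obtain ⟨k13, e13⟩ := hod (c 13) (by decide)
  obtain ⟨k14, e14⟩ := hod (c 14) (by decide)
  obtain ⟨k15, e15⟩ := hod (c 15) (by decide)
  obtain ⟨k16, e16⟩ := hod (c 16) (by decide)
  obtain ⟨k17, e17⟩ := hod (c 17) (by decide)
  obtain ⟨k18, e18⟩ := hod (c 18) (by decide)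
  obtain ⟨k19, e19⟩ := hod (c 19) (by decide)
  obtain ⟨k20, e20⟩ := hod (c 20) (by decide)
  obtain ⟨k21, e21⟩ := hod (c 21) (by decide)
  obtain ⟨k22, e22⟩ := hod (c 22) (by decide)
  obtain ⟨k23, e23⟩ := hod (c 23) (by decide)
  rw [e0, e12, e13, e1] at h0
  rw [e0, e16, e18, e2] at h1
  rw [e0, e23, e20, e3] at h2
  rw [e1, e19, e17, e3] at h3
  rw [e1, e21, e22, e2] at h4
  rw [e2, e15, e14, e3] at h5
  rw [e4, e16, e17, e5] at h6
  rw [e4, e20, e22, e6] at h7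
  rw [e4, e15, e12, e7] at h8
  rw [e5, e23, e21, e7] at h9
  rw [e5, e13, e14, e6] at h10
  rw [e6, e19, e18, e7] at h11
  rw [e8, e20, e21, e9] at h12
  rw [e8, e12, e14, e10] at h13
  rw [e8, e19, e16, e11] at h14
  rw [e9, e15, e13, e11] at h15
  rw [e9, e17, e18, e10] at h16
  rw [e10, e23, e22, e11] at h17
  omega

end Pool.Agent.L0h84.DK
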