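import Mathlib

/-!
# From a unitary equivalence to a point map and an invertible matrix function
-/

namespace Pool.Agent.L0h84.DK

open Set WeakDual WeakDual.CharacterSpace
open scoped ZeroAtInfty ComplexOrder

variable {X Y : Type*} [TopologicalSpace X] [CompactSpace X] [T2Space X]
  [TopologicalSpace Y] [CompactSpace Y] [T2Space Y]

/-- continuous functions on a compact space as elements of `C₀` -/
def lft (f : C(X, ℂ)) : C₀(X, ℂ) where
  toContinuousMap := f
  zero_at_infty' := by simp

@[simp] theorem lft_apply (f : C(X, ℂ)) (x : X) : lft f x = f x := rfl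

/-- the unital star algebra character at `y` obtained from `ρ` -/
theorem exists_point_map (ρ : C₀(X, ℂ) ≃⋆ₐ[ℂ] C₀(Y, ℂ)) :
    ∃ δ : Y → X, Continuous δ ∧ Function.Injective δ ∧
      ∀ (f : C(X, ℂ)) (y : Y), ρ (lft f) y = f (δ y) := by
  have hone : ρ (lft 1) = lft 1 := by
    have h1 : ∀ a : C₀(X, ℂ), lft 1 * a = a := fun a => by ext x; simp
    have h2 : ∀ b : C₀(Y, ℂ), ρ (lft 1) * b = b := fun b => by
      have := congrArg ρ (h1 (ρ.symm b))
      rwa [map_mul, StarAlgEquiv.apply_symm_apply] at this
    have h3 := h2 (lft 1)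
    rw [← h3]
    ext y
    simp
  let χ : Y → (C(X, ℂ) →ₐ[ℂ] ℂ) := fun y =>
    { toFun := fun f => ρ (lft f) y
      map_one' := by rw [hone]; rfl
      map_mul' := fun f g => by
        have : lft (f * g) = lft f * lft g := by ext x; rfl
        rw [this, map_mul]; rfl
      map_zero' := by
        have : lft (0 : C(X, ℂ)) = 0 := by ext x; rfl
        rw [this, map_zero]; rfl
      map_add' := fun f g => by
        have : lft (f + g) = lft f + lft g := by ext x; rfl
        rw [this, map_add]; rfl
      commutes' := fun r => by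
        have h4 : lft (algebraMap ℂ C(X, ℂ) r) = r • lft 1 := by
          ext x
          simp [Algebra.algebraMap_eq_smul_one]
        change ρ (lft (algebraMap ℂ C(X, ℂ) r)) y = r
        rw [h4, map_smul, hone]
        simp }
  let δ : Y → X := fun y => (homeoEval X ℂ).symm (equivAlgHom.symm (χ y))
  have hδ : ∀ (f : C(X, ℂ)) (y : Y), ρ (lft f) y = f (δ y) := by
    intro f y
    have h1 : homeoEval X ℂ (δ y) = equivAlgHom.symm (χ y) := by
      simp only [δ, Homeomorph.apply_symm_apply]
    have h2 : (homeoEval X ℂ (δ y)) f = (equivAlgHom.symm (χ y)) f := by rw [h1]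
    rw [equivAlgHom_symm_coe] at h2
    exact h2.symm
  refine ⟨δ, ?_, ?_, hδ⟩
  · refine (homeoEval X ℂ).symm.continuous.comp ?_
    refine Continuous.subtype_mk (WeakDual.continuous_of_continuous_eval fun f => ?_) _
    exact (map_continuous (ρ (lft f)))
  · intro y y' h
    apply (continuousMapEval_bijective (X := Y) (𝕜 := ℂ)).1
    apply DFunLike.ext
    intro b
    have h5 : lft b = ρ (lft ((ρ.symm (lft b)).toContinuousMap)) := by
      have : lft ((ρ.symm (lft b)).toContinuousMap) = ρ.symm (lft b) := by ext x; rfl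
      rw [this, StarAlgEquiv.apply_symm_apply]
    change lft b y = lft b y'
    rw [h5, hδ, hδ, h]

theorem extract {n : ℕ} (σ : Fin n → X → X) (hσ : ∀ i, Continuous (σ i))
    (τ : Fin n → Y → Y)
    (ρ : C₀(X, ℂ) ≃⋆ₐ[ℂ] C₀(Y, ℂ)) (U : (Fin n → C₀(X, ℂ)) → (Fin n → C₀(Y, ℂ)))
    (hin : ∀ ξ η, ∑ i, star (U ξ i) * U η i = ρ (∑ i, star (ξ i) * η i))
    (hact : ∀ (a : C₀(X, ℂ)) (ξ ξ' : Fin n → C₀(X, ℂ)), (∀ i x, ξ' i x = a (σ i x) * ξ i x) →
      ∀ i y, U ξ' i y = ρ a (τ i y) * U ξ i y) :
    ∃ δ : Y → X, Continuous δ ∧ Function.Injective δ ∧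
      ∃ u : Y → Matrix (Fin n) (Fin n) ℂ, (∀ i j, Continuous fun y => u y i j) ∧
        (∀ y, (u y).det ≠ 0) ∧ ∀ y i j, u y i j ≠ 0 → δ (τ i y) = σ j (δ y) := by
  classical
  obtain ⟨δ, hc, hi, hδ⟩ := exists_point_map ρ
  -- evaluation of the inner product
  have hinner : ∀ ξ η : Fin n → C₀(X, ℂ), ∀ y,
      ∑ i, star (U ξ i y) * U η i y = ρ (∑ i, star (ξ i) * η i) y := by
    intro ξ η y
    rw [← hin]
    have : ∀ (s : Finset (Fin n)), (∑ i ∈ s, star (U ξ i) * U η i : C₀(Y, ℂ)) y =
        ∑ i ∈ s, star (U ξ i y) * U η i y := by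
      intro s
      induction s using Finset.induction_on with
      | empty => simp
      | insert a s ha ih => rw [Finset.sum_insert ha, Finset.sum_insert ha, ← ih]; rfl
    exact (this Finset.univ).symm
  have hsing : ∀ (j k : Fin n) (f g : C(X, ℂ)),
      ∑ i, star ((Pi.single j (lft f) : Fin n → C₀(X, ℂ)) i) *
        (Pi.single k (lft g) : Fin n → C₀(X, ℂ)) i =
      if j = k then lft (star f * g) else 0 := by
    intro j k f g
    have h1 : ∀ i, star ((Pi.single j (lft f) : Fin n → C₀(X, ℂ)) i) *
        (Pi.single k (lft g) : Fin n → C₀(X, ℂ)) i =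
        if i = j then (if j = k then lft (star f * g) else 0) else 0 := by
      intro i
      by_cases hij : i = j
      · subst hij
        by_cases hik : i = k
        · subst hik
          simp
          ext x; rfl
        · simp [hik]
      · simp [hij]
    simp only [h1]
    simp
  let u : Y → Matrix (Fin n) (Fin n) ℂ := fun y i j => U (Pi.single j (lft 1)) i y
  have hmod : ∀ (j : Fin n) (c : C(X, ℂ)) i y,
      U (Pi.single j (lft c)) i y = u y i j * ρ (lft c) y := by
    intro j c i y
    have e1 := hinner (Pi.single j (lft c)) (Pi.single j (lft c)) y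
    have e2 := hinner (Pi.single j (lft c)) (Pi.single j (lft 1)) y
    have e3 := hinner (Pi.single j (lft 1)) (Pi.single j (lft c)) y
    have e4 := hinner (Pi.single j (lft 1)) (Pi.single j (lft 1)) y
    rw [hsing, if_pos rfl, hδ] at e1 e2 e3 e4
    have key : ∑ i, star (U (Pi.single j (lft c)) i y - u y i j * c (δ y)) *
        (U (Pi.single j (lft c)) i y - u y i j * c (δ y)) = 0 := by
      have h2 : ∀ i, star (U (Pi.single j (lft c)) i y - u y i j * c (δ y)) *
          (U (Pi.single j (lft c)) i y - u y i j * c (δ y)) =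
          star (U (Pi.single j (lft c)) i y) * U (Pi.single j (lft c)) i y
          - (star (U (Pi.single j (lft c)) i y) * U (Pi.single j (lft 1)) i y) * c (δ y)
          - star (c (δ y)) * (star (U (Pi.single j (lft 1)) i y) * U (Pi.single j (lft c)) i y)
          + star (c (δ y)) * (star (U (Pi.single j (lft 1)) i y) *
            U (Pi.single j (lft 1)) i y) * c (δ y) := by
        intro i
        simp only [u, star_sub, star_mul']
        ring
      simp only [h2, Finset.sum_add_distrib, Finset.sum_sub_distrib, ← Finset.sum_mul,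
        ← Finset.mul_sum, e1, e2, e3, e4]
      simp
    have h3 : ∀ i ∈ (Finset.univ : Finset (Fin n)),
        0 ≤ (star (U (Pi.single j (lft c)) i y - u y i j * c (δ y)) *
        (U (Pi.single j (lft c)) i y - u y i j * c (δ y))) := by
      intro i _
      exact star_mul_self_nonneg _
    have h4 := (Finset.sum_eq_zero_iff_of_nonneg h3).mp key i (Finset.mem_univ i)
    have h5 : U (Pi.single j (lft c)) i y - u y i j * c (δ y) = 0 := by
      rcases mul_eq_zero.mp h4 with h | h
      · exact star_eq_zero.mp h
      · exact h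
    rw [hδ]
    exact sub_eq_zero.mp h5
  refine ⟨δ, hc, hi, u, fun i j => map_continuous (U (Pi.single j (lft 1)) i), ?_, ?_⟩
  · intro y
    have h1 : (u y).conjTranspose * u y = 1 := by
      ext j k
      rw [Matrix.mul_apply]
      simp only [Matrix.conjTranspose_apply]
      have e := hinner (Pi.single j (lft 1)) (Pi.single k (lft 1)) y
      rw [hsing] at e
      rw [Matrix.one_apply]
      change ∑ i, star (U (Pi.single j (lft 1)) i y) * U (Pi.single k (lft 1)) i y = _
      rw [e]
      split_ifs with h
      · rw [hδ]; simp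
      · rw [map_zero]; rfl
    intro h
    have h2 := congrArg Matrix.det h1
    rw [Matrix.det_mul, h, mul_zero, Matrix.det_one] at h2
    exact zero_ne_one h2
  · intro y i j hu
    apply (continuousMapEval_bijective (X := X) (𝕜 := ℂ)).1
    apply DFunLike.ext
    intro a
    change a (δ (τ i y)) = a (σ j (δ y))
    have h1 := hact (lft a) (Pi.single j (lft 1)) (Pi.single j (lft (a.comp ⟨σ j, hσ j⟩)))
      (fun i x => by
        by_cases hij : i = j
        · subst hij; simp
        · simp [hij]) i y
    rw [hmod, hδ, hδ] at h1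
    have h2 : a (δ (τ i y)) * u y i j = a (σ j (δ y)) * u y i j := by
      rw [mul_comm (a (σ j (δ y)))]
      exact h1.symm
    exact mul_right_cancel₀ hu h2

end Pool.Agent.L0h84.DK
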