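import Mathlib

/-!
# Continuous logarithms on convex sets
-/

namespace Pool.Agent.L0h84.DK

open Set

variable {E : Type*} [NormedAddCommGroup E] [NormedSpace ℝ E]

/-- A nowhere vanishing continuous function on a convex set has a continuous logarithm. -/
theorem exists_log {K : Set E} (hK : Convex ℝ K) (hne : K.Nonempty) {g : E → ℂ}
    (hgc : ContinuousOn g K) (hg0 : ∀ x ∈ K, g x ≠ 0) :
    ∃ f : E → ℂ, ContinuousOn f K ∧ ∀ x ∈ K, Complex.exp (f x) = g x := by
  classical
  have h1 : ContractibleSpace K := hK.contractibleSpace hne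
  have h2 : SimplyConnectedSpace K := inferInstance
  have h3 : LocallyPathConnectedSpace K := hK.locallyPathConnectedSpace
  obtain ⟨x₀, hx₀⟩ := hne
  rcases Complex.isCoveringMapOn_exp.existsUnique_continuousMap_lifts
    ⟨K.domRestrict g, continuousOn_iff_continuous_domRestrict.mp hgc⟩
    (a₀ := (⟨x₀, hx₀⟩ : K)) (e₀ := Complex.log (g x₀)) (Complex.exp_log (hg0 x₀ hx₀))
    (fun x ↦ hg0 x.1 x.2) with ⟨f, ⟨-, hf⟩, -⟩
  obtain ⟨F, hF⟩ : ∃ F : E → ℂ, ∀ z : K, F z = f z :=
    ⟨fun z ↦ if hz : z ∈ K then f ⟨z, hz⟩ else 0, by simp⟩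
  refine ⟨F, ?_, ?_⟩
  · rw [continuousOn_iff_continuous_domRestrict]
    convert! map_continuous f
    ext z
    exact hF z
  · intro x hx
    have := congrFun hf ⟨x, hx⟩
    simpa [← hF ⟨x, hx⟩] using this

theorem exp_eq_one_close {z : ℂ} (hz : Complex.exp z = 1) (h : ‖z‖ < 1) : z = 0 := by
  rw [Complex.exp_eq_one_iff] at hz
  obtain ⟨n, rfl⟩ := hz
  by_cases hn : n = 0
  · simp [hn]
  · exfalso
    have h1 : (1 : ℝ) ≤ |(n : ℝ)| := by
      have := Int.one_le_abs hn
      exact_mod_cast this
    have h2 : ‖(n : ℂ) * (2 * Real.pi * Complex.I)‖ = |(n : ℝ)| * (2 * Real.pi) := by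
      simp [abs_of_pos Real.pi_pos]
    rw [h2] at h
    nlinarith [Real.pi_gt_three]

/-- If two continuous functions on a preconnected set have exponentials that agree up to a
constant factor, then their difference is constant. -/
theorem sub_const {α : Type*} [TopologicalSpace α] {S : Set α} (hS : IsPreconnected S)
    {f g : α → ℂ} (hf : ContinuousOn f S) (hg : ContinuousOn g S) (c : ℂ) (hc : c ≠ 0)
    (h : ∀ z ∈ S, Complex.exp (f z) = c * Complex.exp (g z)) {x y : α} (hx : x ∈ S) (hy : y ∈ S) :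
    f y - f x = g y - g x := by
  have key : ∀ z ∈ S, ∀ w ∈ S, Complex.exp ((f z - g z) - (f w - g w)) = 1 := by
    intro z hz w hw
    rw [Complex.exp_sub, Complex.exp_sub, Complex.exp_sub, h z hz, h w hw]
    have e1 := Complex.exp_ne_zero (g z)
    have e2 := Complex.exp_ne_zero (g w)
    field_simp
  have hT : IsDiscrete ((fun z => f z - g z) '' S) := by
    rw [isDiscrete_iff_forall_mem_exists_isOpen]
    intro a ha
    obtain ⟨z, hz, rfl⟩ := ha
    refine ⟨Metric.ball (f z - g z) 1, Metric.isOpen_ball, ?_⟩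
    ext b
    constructor
    · rintro ⟨hb1, w, hw, rfl⟩
      rw [Metric.mem_ball, dist_eq_norm] at hb1
      have := exp_eq_one_close (key w hw z hz) hb1
      rw [mem_singleton_iff]
      exact sub_eq_zero.mp this
    · intro hb
      rw [mem_singleton_iff] at hb
      subst hb
      exact ⟨Metric.mem_ball_self one_pos, z, hz, rfl⟩
  have : f x - g x = f y - g y :=
    hS.constant_of_mapsTo hT (hf.sub hg) (mapsTo_image _ _) hx hy
  linear_combination -this

end Pool.Agent.L0h84.DK
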