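import Mathlib
import Pool.Agent.L0h84.DK.Log

/-!
# The determinant obstruction on the simplex with vertex set `S_4`
-/

namespace Pool.Agent.L0h84.DK

open Set Equiv

/-- points of the simplex supported in `A` -/
def Supp (A : Set (Perm (Fin 4))) : Set (Perm (Fin 4) → ℝ) :=
  {x | x ∈ stdSimplex ℝ (Perm (Fin 4)) ∧ ∀ π, x π ≠ 0 → π ∈ A}

theorem supp_convex (A : Set (Perm (Fin 4))) : Convex ℝ (Supp A) := by
  intro x hx y hy a b ha hb hab
  refine ⟨convex_stdSimplex ℝ _ hx.1 hy.1 ha hb hab, fun π hπ => ?_⟩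
  by_contra h
  have h1 : x π = 0 := by
    by_contra h1
    exact h (hx.2 π h1)
  have h2 : y π = 0 := by
    by_contra h2
    exact h (hy.2 π h2)
  exact hπ (by simp [h1, h2])

theorem supp_mono {A B : Set (Perm (Fin 4))} (h : A ⊆ B) : Supp A ⊆ Supp B :=
  fun _ hx => ⟨hx.1, fun π hπ => h (hx.2 π hπ)⟩

/-- the vertices of the simplex -/
noncomputable def vert (π : Perm (Fin 4)) : Perm (Fin 4) → ℝ := Pi.single π 1

theorem vert_mem {A : Set (Perm (Fin 4))} {π : Perm (Fin 4)} (h : π ∈ A) : vert π ∈ Supp A := by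
  classical
  refine ⟨single_mem_stdSimplex ℝ π, fun σ hσ => ?_⟩
  by_cases hs : σ = π
  · rw [hs]; exact h
  · exact absurd (by simp [vert, hs]) hσ

/-- the face of all `π` with `π i = j` -/
def Fc (i j : Fin 4) : Set (Perm (Fin 4) → ℝ) := Supp {π | π i = j}

theorem fc_nonempty (i j : Fin 4) : (Fc i j).Nonempty :=
  ⟨vert (Equiv.swap i j), vert_mem (by simp)⟩

theorem det_block (w : Matrix (Fin 4) (Fin 4) ℂ)
    (h02 : w 0 2 = 0) (h03 : w 0 3 = 0) (h12 : w 1 2 = 0) (h13 : w 1 3 = 0)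
    (h20 : w 2 0 = 0) (h21 : w 2 1 = 0) (h30 : w 3 0 = 0) (h31 : w 3 1 = 0) :
    w.det = (w 0 0 * w 1 1 - w 0 1 * w 1 0) * (w 2 2 * w 3 3 - w 2 3 * w 3 2) := by
  rw [Matrix.det_succ_row_zero]
  simp only [Fin.sum_univ_succ, Matrix.det_fin_three, Matrix.submatrix_apply]
  simp [Fin.succAbove, h02, h03, h12, h13, h20, h21, h30, h31]
  ring

/-- the data of the obstruction problem -/
structure Data where
  u : (Perm (Fin 4) → ℝ) → Matrix (Fin 4) (Fin 4) ℂ
  cont : ∀ i j, ContinuousOn (fun x => u x i j) (stdSimplex ℝ (Perm (Fin 4)))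
  det_ne : ∀ x ∈ stdSimplex ℝ (Perm (Fin 4)), (u x).det ≠ 0
  pat : ∀ (D E : Finset (Fin 4)) (x), x ∈ Supp {π | D.image π = E} →
    ∀ i j, ¬ (i ∈ D ↔ j ∈ E) → u x i j = 0

namespace Data

variable (d : Data)

theorem row {x} {i j k : Fin 4} (hx : x ∈ Fc i j) (hk : k ≠ j) : d.u x i k = 0 := by
  refine d.pat {i} {j} x ?_ i k ?_
  · have : {π : Perm (Fin 4) | ({i} : Finset (Fin 4)).image π = {j}} = {π | π i = j} := by
      ext π; simp
    rw [this]; exact hx
  · simp [hk]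

theorem col {x} {i j k : Fin 4} (hx : x ∈ Fc i j) (hk : k ≠ i) : d.u x k j = 0 := by
  refine d.pat {i} {j} x ?_ k j ?_
  · have : {π : Perm (Fin 4) | ({i} : Finset (Fin 4)).image π = {j}} = {π | π i = j} := by
      ext π; simp
    rw [this]; exact hx
  · simp [hk]

theorem entry_ne {x} {i j : Fin 4} (hx : x ∈ Fc i j) : d.u x i j ≠ 0 := by
  intro h
  apply d.det_ne x hx.1
  apply Matrix.det_eq_zero_of_row_eq_zero i
  intro k
  by_cases hk : k = j
  · rw [hk]; exact h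
  · exact d.row hx hk

theorem det_cont : ContinuousOn (fun x => (d.u x).det) (stdSimplex ℝ (Perm (Fin 4))) := by
  simp only [Matrix.det_apply]
  refine continuousOn_finsetSum _ fun σ _ => ?_
  refine ContinuousOn.const_smul (continuousOn_finsetProd _ fun i _ => d.cont _ _) _

theorem exists_phi : ∃ Φ : (Perm (Fin 4) → ℝ) → ℂ, ContinuousOn Φ (stdSimplex ℝ (Perm (Fin 4))) ∧
    ∀ x ∈ stdSimplex ℝ (Perm (Fin 4)), Complex.exp (Φ x) = (d.u x).det :=
  exists_log (convex_stdSimplex ℝ _) ⟨vert 1, single_mem_stdSimplex ℝ _⟩ d.det_cont d.det_ne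

theorem exists_psi (i j : Fin 4) : ∃ ψ : (Perm (Fin 4) → ℝ) → ℂ, ContinuousOn ψ (Fc i j) ∧
    ∀ x ∈ Fc i j, Complex.exp (ψ x) = d.u x i j :=
  exists_log (supp_convex _) (fc_nonempty i j)
    ((d.cont i j).mono fun _ hx => hx.1) fun _ hx => d.entry_ne hx

theorem det_vert (π : Perm (Fin 4)) :
    (d.u (vert π)).det = ((Perm.sign π : ℤ) : ℂ) * ∏ i, d.u (vert π) i (π i) := by
  have h1 : (d.u (vert π)).submatrix id π =
      Matrix.diagonal (fun i => d.u (vert π) i (π i)) := by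
    ext i k
    rw [Matrix.submatrix_apply, Matrix.diagonal_apply]
    split_ifs with h
    · rw [h]; rfl
    · exact d.row (j := π i) (vert_mem (by simp)) fun h2 => h (π.injective h2).symm
  have h2 := Matrix.det_permute' π (d.u (vert π))
  rw [h1, Matrix.det_diagonal] at h2
  rw [h2, ← mul_assoc]
  rcases Int.units_eq_one_or (Perm.sign π) with h | h <;> simp [h]

end Data

/-- logarithms of the determinant and of the entries -/
structure Logs (d : Data) where
  Φ : (Perm (Fin 4) → ℝ) → ℂ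
  ψ : Fin 4 → Fin 4 → (Perm (Fin 4) → ℝ) → ℂ
  hΦc : ContinuousOn Φ (stdSimplex ℝ (Perm (Fin 4)))
  hΦ : ∀ x ∈ stdSimplex ℝ (Perm (Fin 4)), Complex.exp (Φ x) = (d.u x).det
  hψc : ∀ i j, ContinuousOn (ψ i j) (Fc i j)
  hψ : ∀ i j, ∀ x ∈ Fc i j, Complex.exp (ψ i j x) = d.u x i j

theorem exists_logs (d : Data) : Nonempty (Logs d) := by
  obtain ⟨Φ, h1, h2⟩ := d.exists_phi
  choose ψ h3 h4 using d.exists_psi
  exact ⟨⟨Φ, ψ, h1, h2, h3, h4⟩⟩

namespace Logs

variable {d : Data} (L : Logs d)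

/-- the combination of logarithms at the vertex `π` -/
noncomputable def Psi (π : Perm (Fin 4)) : ℂ :=
  (∑ i, L.ψ i (π i) (vert π)) - L.Φ (vert π)

theorem exp_Psi (π : Perm (Fin 4)) : Complex.exp (L.Psi π) = ((Perm.sign π : ℤ) : ℂ) := by
  have hv : vert π ∈ stdSimplex ℝ (Perm (Fin 4)) := single_mem_stdSimplex ℝ π
  have h1 : ∀ i, vert π ∈ Fc i (π i) := fun i => vert_mem (by simp)
  rw [Psi, Complex.exp_sub, Complex.exp_sum, L.hΦ _ hv]
  simp only [L.hψ _ _ _ (h1 _)]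
  have h2 := d.det_vert π
  have h3 := d.det_ne _ hv
  rw [div_eq_iff h3, h2, ← mul_assoc]
  rcases Int.units_eq_one_or (Perm.sign π) with h | h <;> simp [h]

end Logs

end Pool.Agent.L0h84.DK
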