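import Mathlib
import Pool.Agent.L0h84.DK.Obs

/-!
# The square relations
-/

namespace Pool.Agent.L0h84.DK

open Set Equiv

/-- differences of logarithms over an edge -/
theorem edge {S₁ S₂ : Set (Perm (Fin 4) → ℝ)} {f g : (Perm (Fin 4) → ℝ) → ℂ}
    (hf : ContinuousOn f S₁) (hg : ContinuousOn g S₂) {σ τ : Perm (Fin 4)}
    (h1 : Supp {σ, τ} ⊆ S₁) (h2 : Supp {σ, τ} ⊆ S₂) (c : ℂ) (hc : c ≠ 0)
    (h : ∀ x ∈ Supp {σ, τ}, Complex.exp (f x) = c * Complex.exp (g x)) :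
    f (vert τ) - f (vert σ) = g (vert τ) - g (vert σ) :=
  sub_const (supp_convex {σ, τ}).isPreconnected (hf.mono h1) (hg.mono h2) c hc h
    (vert_mem (by simp)) (vert_mem (by simp))

theorem square {d : Data} (L : Logs d) (π α : Perm (Fin 4)) :
    L.Psi π - L.Psi (π * swap (α 0) (α 1)) - L.Psi (π * swap (α 2) (α 3))
      + L.Psi (π * swap (α 0) (α 1) * swap (α 2) (α 3)) = 0 := by
  classical
  have n01 : α 0 ≠ α 1 := fun h => by simpa using α.injective h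
  have n02 : α 0 ≠ α 2 := fun h => by simpa using α.injective h
  have n03 : α 0 ≠ α 3 := fun h => by simpa using α.injective h
  have n12 : α 1 ≠ α 2 := fun h => by simpa using α.injective h
  have n13 : α 1 ≠ α 3 := fun h => by simpa using α.injective h
  have n23 : α 2 ≠ α 3 := fun h => by simpa using α.injective h
  obtain ⟨π₁, hπ₁⟩ : ∃ π₁, π₁ = π * swap (α 0) (α 1) := ⟨_, rfl⟩
  obtain ⟨π₂, hπ₂⟩ : ∃ π₂, π₂ = π * swap (α 2) (α 3) := ⟨_, rfl⟩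
  obtain ⟨π₃, hπ₃⟩ : ∃ π₃, π₃ = π * swap (α 0) (α 1) * swap (α 2) (α 3) := ⟨_, rfl⟩
  have a10 : π₁ (α 0) = π (α 1) := by rw [hπ₁]; simp
  have a11 : π₁ (α 1) = π (α 0) := by rw [hπ₁]; simp
  have a12 : π₁ (α 2) = π (α 2) := by
    rw [hπ₁, Perm.mul_apply, swap_apply_of_ne_of_ne n02.symm n12.symm]
  have a13 : π₁ (α 3) = π (α 3) := by
    rw [hπ₁, Perm.mul_apply, swap_apply_of_ne_of_ne n03.symm n13.symm]
  have a20 : π₂ (α 0) = π (α 0) := by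
    rw [hπ₂, Perm.mul_apply, swap_apply_of_ne_of_ne n02 n03]
  have a21 : π₂ (α 1) = π (α 1) := by
    rw [hπ₂, Perm.mul_apply, swap_apply_of_ne_of_ne n12 n13]
  have a22 : π₂ (α 2) = π (α 3) := by rw [hπ₂]; simp
  have a23 : π₂ (α 3) = π (α 2) := by rw [hπ₂]; simp
  have a30 : π₃ (α 0) = π (α 1) := by
    rw [hπ₃, Perm.mul_apply, swap_apply_of_ne_of_ne n02 n03]; simp
  have a31 : π₃ (α 1) = π (α 0) := by
    rw [hπ₃, Perm.mul_apply, swap_apply_of_ne_of_ne n12 n13]; simp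
  have a32 : π₃ (α 2) = π (α 3) := by
    rw [hπ₃, Perm.mul_apply, swap_apply_left, Perm.mul_apply,
      swap_apply_of_ne_of_ne n03.symm n13.symm]
  have a33 : π₃ (α 3) = π (α 2) := by
    rw [hπ₃, Perm.mul_apply, swap_apply_right, Perm.mul_apply,
      swap_apply_of_ne_of_ne n02.symm n12.symm]
  rw [← hπ₃, ← hπ₁, ← hπ₂]
  -- the block face
  obtain ⟨G, hG⟩ : ∃ G : Set (Perm (Fin 4)), G =
    {σ : Perm (Fin 4) | ({α 0, α 1} : Finset (Fin 4)).image σ = {π (α 0), π (α 1)}} := ⟨_, rfl⟩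
  have g0 : π ∈ G := by rw [hG]; simp
  have g1 : π₁ ∈ G := by rw [hG]; simp [a10, a11, Finset.pair_comm]
  have g2 : π₂ ∈ G := by rw [hG]; simp [a20, a21]
  have g3 : π₃ ∈ G := by rw [hG]; simp [a30, a31, Finset.pair_comm]
  have hsgn : ((Perm.sign π : ℤ) : ℂ) * ((Perm.sign π : ℤ) : ℂ) = 1 := by
    rcases Int.units_eq_one_or (Perm.sign π) with h | h <;> simp [h]
  have hsgn0 : ((Perm.sign π : ℤ) : ℂ) ≠ 0 := by
    intro h; rw [h] at hsgn; simp at hsgn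
  -- the reordered matrix
  obtain ⟨w, hw⟩ : ∃ w : (Perm (Fin 4) → ℝ) → Matrix (Fin 4) (Fin 4) ℂ,
    w = fun x => (d.u x).submatrix α (π ∘ α) := ⟨_, rfl⟩
  have hwe : ∀ x i k, w x i k = d.u x (α i) (π (α k)) := by
    intro x i k; rw [hw]; rfl
  have hwdet : ∀ x, (w x).det = ((Perm.sign π : ℤ) : ℂ) * (d.u x).det := by
    intro x
    have h1 : w x = ((d.u x).submatrix id π).submatrix α α := by
      rw [hw]; ext i k; rfl
    rw [h1, Matrix.det_submatrix_equiv_self, Matrix.det_permute']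
  have hz : ∀ x ∈ Supp G, ∀ i k, ¬ (α i ∈ ({α 0, α 1} : Finset (Fin 4)) ↔
      π (α k) ∈ ({π (α 0), π (α 1)} : Finset (Fin 4))) → w x i k = 0 := by
    intro x hx i k hik
    rw [hwe]
    exact d.pat _ _ x (by rw [← hG]; exact hx) _ _ hik
  have hblock : ∀ x ∈ Supp G, (w x).det = (w x 0 0 * w x 1 1 - w x 0 1 * w x 1 0) *
      (w x 2 2 * w x 3 3 - w x 2 3 * w x 3 2) := by
    intro x hx
    apply det_block
    all_goals
      apply hz x hx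
      simp [n02.symm, n03.symm, n12.symm, n13.symm]
  have hm0 : ∀ x ∈ Supp G, w x 0 0 * w x 1 1 - w x 0 1 * w x 1 0 ≠ 0 := by
    intro x hx h
    have h1 := hblock x hx
    rw [h, zero_mul, hwdet] at h1
    exact mul_ne_zero hsgn0 (d.det_ne x hx.1) h1
  have hmc : ContinuousOn (fun x => w x 0 0 * w x 1 1 - w x 0 1 * w x 1 0) (Supp G) := by
    simp only [hwe]
    have hs : Supp G ⊆ stdSimplex ℝ (Perm (Fin 4)) := fun _ hx => hx.1
    exact (((d.cont _ _).mono hs).mul ((d.cont _ _).mono hs)).sub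
      (((d.cont _ _).mono hs).mul ((d.cont _ _).mono hs))
  obtain ⟨θ, hθc, hθ⟩ := exists_log (supp_convex G) ⟨vert π, vert_mem g0⟩ hmc hm0
  -- the edge `π — π₁`
  have hsub : ∀ {σ τ : Perm (Fin 4)} {A : Set (Perm (Fin 4))}, σ ∈ A → τ ∈ A →
      Supp {σ, τ} ⊆ Supp A := by
    intro σ τ A h1 h2
    exact supp_mono (by rintro ρ (rfl | rfl) <;> assumption)
  have e1 : L.Φ (vert π₁) - L.Φ (vert π) =
      (θ (vert π₁) + L.ψ (α 2) (π (α 2)) (vert π₁) + L.ψ (α 3) (π (α 3)) (vert π₁)) -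
      (θ (vert π) + L.ψ (α 2) (π (α 2)) (vert π) + L.ψ (α 3) (π (α 3)) (vert π)) := by
    have s1 : Supp {π, π₁} ⊆ Fc (α 2) (π (α 2)) := hsub rfl a12
    have s2 : Supp {π, π₁} ⊆ Fc (α 3) (π (α 3)) := hsub rfl a13
    have s3 : Supp {π, π₁} ⊆ Supp G := hsub g0 g1
    refine edge (S₂ := Supp {π, π₁}) L.hΦc (f := L.Φ)
      (g := fun x => θ x + L.ψ (α 2) (π (α 2)) x + L.ψ (α 3) (π (α 3)) x)
      (((hθc.mono s3).add ((L.hψc _ _).mono s1)).add ((L.hψc _ _).mono s2))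
      (fun _ hx => hx.1) subset_rfl _ hsgn0 ?_
    intro x hx
    rw [Complex.exp_add, Complex.exp_add, hθ x (s3 hx), L.hψ _ _ x (s1 hx), L.hψ _ _ x (s2 hx),
      L.hΦ x hx.1]
    have h1 := hblock x (s3 hx)
    have h2 : w x 2 3 = 0 := by
      rw [hwe]; exact d.row (s1 hx) fun h => n23.symm (π.injective h)
    rw [h2, hwdet, hwe x 2 2, hwe x 3 3] at h1
    linear_combination ((Perm.sign π : ℤ) : ℂ) * h1 - (d.u x).det * hsgn
  have e2 : L.Φ (vert π₃) - L.Φ (vert π₂) =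
      (θ (vert π₃) + L.ψ (α 2) (π (α 3)) (vert π₃) + L.ψ (α 3) (π (α 2)) (vert π₃)) -
      (θ (vert π₂) + L.ψ (α 2) (π (α 3)) (vert π₂) + L.ψ (α 3) (π (α 2)) (vert π₂)) := by
    have s1 : Supp {π₂, π₃} ⊆ Fc (α 2) (π (α 3)) := hsub a22 a32
    have s2 : Supp {π₂, π₃} ⊆ Fc (α 3) (π (α 2)) := hsub a23 a33
    have s3 : Supp {π₂, π₃} ⊆ Supp G := hsub g2 g3
    refine edge (S₂ := Supp {π₂, π₃}) L.hΦc (f := L.Φ)
      (g := fun x => θ x + L.ψ (α 2) (π (α 3)) x + L.ψ (α 3) (π (α 2)) x)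
      (((hθc.mono s3).add ((L.hψc _ _).mono s1)).add ((L.hψc _ _).mono s2))
      (fun _ hx => hx.1) subset_rfl (-((Perm.sign π : ℤ) : ℂ)) (neg_ne_zero.mpr hsgn0) ?_
    intro x hx
    rw [Complex.exp_add, Complex.exp_add, hθ x (s3 hx), L.hψ _ _ x (s1 hx), L.hψ _ _ x (s2 hx),
      L.hΦ x hx.1]
    have h1 := hblock x (s3 hx)
    have h2 : w x 2 2 = 0 := by
      rw [hwe]; exact d.row (s1 hx) fun h => n23 (π.injective h)
    rw [h2, hwdet, hwe x 2 3, hwe x 3 2] at h1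
    linear_combination ((Perm.sign π : ℤ) : ℂ) * h1 - (d.u x).det * hsgn
  have e3 : θ (vert π₂) - θ (vert π) =
      (L.ψ (α 0) (π (α 0)) (vert π₂) + L.ψ (α 1) (π (α 1)) (vert π₂)) -
      (L.ψ (α 0) (π (α 0)) (vert π) + L.ψ (α 1) (π (α 1)) (vert π)) := by
    have s1 : Supp {π, π₂} ⊆ Fc (α 0) (π (α 0)) := hsub rfl a20
    have s2 : Supp {π, π₂} ⊆ Fc (α 1) (π (α 1)) := hsub rfl a21
    have s3 : Supp {π, π₂} ⊆ Supp G := hsub g0 g2
    refine edge (S₂ := Supp {π, π₂}) hθc (f := θ)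
      (g := fun x => L.ψ (α 0) (π (α 0)) x + L.ψ (α 1) (π (α 1)) x)
      (((L.hψc _ _).mono s1).add ((L.hψc _ _).mono s2))
      s3 subset_rfl 1 one_ne_zero ?_
    intro x hx
    rw [Complex.exp_add, hθ x (s3 hx), L.hψ _ _ x (s1 hx), L.hψ _ _ x (s2 hx)]
    have h2 : w x 0 1 = 0 := by
      rw [hwe]; exact d.row (s1 hx) fun h => n01.symm (π.injective h)
    rw [h2, hwe x 0 0, hwe x 1 1]
    ring
  have e4 : θ (vert π₃) - θ (vert π₁) =
      (L.ψ (α 0) (π (α 1)) (vert π₃) + L.ψ (α 1) (π (α 0)) (vert π₃)) -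
      (L.ψ (α 0) (π (α 1)) (vert π₁) + L.ψ (α 1) (π (α 0)) (vert π₁)) := by
    have s1 : Supp {π₁, π₃} ⊆ Fc (α 0) (π (α 1)) := hsub a10 a30
    have s2 : Supp {π₁, π₃} ⊆ Fc (α 1) (π (α 0)) := hsub a11 a31
    have s3 : Supp {π₁, π₃} ⊆ Supp G := hsub g1 g3
    refine edge (S₂ := Supp {π₁, π₃}) hθc (f := θ)
      (g := fun x => L.ψ (α 0) (π (α 1)) x + L.ψ (α 1) (π (α 0)) x)
      (((L.hψc _ _).mono s1).add ((L.hψc _ _).mono s2))
      s3 subset_rfl (-1) (by norm_num) ?_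
    intro x hx
    rw [Complex.exp_add, hθ x (s3 hx), L.hψ _ _ x (s1 hx), L.hψ _ _ x (s2 hx)]
    have h2 : w x 0 0 = 0 := by
      rw [hwe]; exact d.row (s1 hx) fun h => n01 (π.injective h)
    rw [h2, hwe x 0 1, hwe x 1 0]
    ring
  have hsum : ∀ σ : Perm (Fin 4), L.Psi σ = L.ψ (α 0) (σ (α 0)) (vert σ) +
      L.ψ (α 1) (σ (α 1)) (vert σ) + L.ψ (α 2) (σ (α 2)) (vert σ) +
      L.ψ (α 3) (σ (α 3)) (vert σ) - L.Φ (vert σ) := by
    intro σ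
    rw [Logs.Psi, ← Equiv.sum_comp α (fun i => L.ψ i (σ i) (vert σ)), Fin.sum_univ_four]
  rw [hsum π, hsum π₁, hsum π₂, hsum π₃, a10, a11, a12, a13, a20, a21, a22, a23, a30, a31, a32,
    a33]
  linear_combination e1 - e2 + e3 - e4

end Pool.Agent.L0h84.DK
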