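import Mathlib
import Pool.Agent.L0h84.DK.Sq
import Pool.Agent.L0h84.DK.Comb

/-!
# There is no compatible map from the simplex on `S_4` to `GL_4(ℂ)`
-/

namespace Pool.Agent.L0h84.DK

open Set Equiv

theorem exists_int {d : Data} (L : Logs d) (π : Perm (Fin 4)) :
    ∃ m : ℤ, L.Psi π = m * (Real.pi * Complex.I) ∧ (Perm.sign π = 1 → ∃ k : ℤ, m = 2 * k) ∧
      (Perm.sign π = -1 → ∃ k : ℤ, m = 2 * k + 1) := by
  have h := L.exp_Psi π
  rcases Int.units_eq_one_or (Perm.sign π) with hs | hs
  · rw [hs] at h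
    have h' : Complex.exp (L.Psi π) = 1 := by simpa using h
    rw [Complex.exp_eq_one_iff] at h'
    obtain ⟨n, hn⟩ := h'
    refine ⟨2 * n, by rw [hn]; push_cast; ring, fun _ => ⟨n, rfl⟩, fun h => ?_⟩
    rw [hs] at h
    exact absurd h (by decide)
  · rw [hs] at h
    have h' : Complex.exp (L.Psi π - Real.pi * Complex.I) = 1 := by
      rw [Complex.exp_sub, h, Complex.exp_pi_mul_I]
      simp
    rw [Complex.exp_eq_one_iff] at h'
    obtain ⟨n, hn⟩ := h'
    refine ⟨2 * n + 1, ?_, fun h => ?_, fun _ => ⟨n, rfl⟩⟩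
    · push_cast
      linear_combination hn
    · rw [hs] at h
      exact absurd h (by decide)

theorem no_data (d : Data) : False := by
  obtain ⟨L⟩ := exists_logs d
  choose f h1 h2 h3 using exists_int L
  refine comb f ?_ h2 h3
  intro π α
  have h := square L π α
  rw [h1, h1, h1, h1] at h
  have hpi : (Real.pi * Complex.I : ℂ) ≠ 0 := by
    simp [Real.pi_ne_zero]
  have h4 : ((f π - f (π * swap (α 0) (α 1)) - f (π * swap (α 2) (α 3))
      + f (π * swap (α 0) (α 1) * swap (α 2) (α 3)) : ℤ) : ℂ) * (Real.pi * Complex.I) = 0 := by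
    push_cast
    linear_combination h
  have h5 := (mul_eq_zero.mp h4).resolve_right hpi
  exact_mod_cast h5

end Pool.Agent.L0h84.DK
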