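import Mathlib

/-!
# Two maps of a cube that generate a dense orbit of the origin
-/

namespace Pool.Agent.L0h84.DK

open Set unitInterval

/-- `z ↦ (z + b) / 2` on the unit interval -/
noncomputable def half (b z : I) : I :=
  ⟨((z : ℝ) + b) / 2, by
    constructor
    · have := z.2.1; have := b.2.1; positivity
    · have := z.2.2; have := b.2.2; linarith⟩

theorem continuous_half (b : I) : Continuous (half b) := by
  unfold half
  fun_prop

/-- the shift of the coordinates, with `(z₀ + b) / 2` appended at the end -/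
noncomputable def R {m : ℕ} (b : I) (z : Fin (m + 1) → I) : Fin (m + 1) → I :=
  fun k => if h : (k : ℕ) < m then z ⟨k + 1, by omega⟩ else half b (z 0)

theorem continuous_R {m : ℕ} (b : I) : Continuous (R (m := m) b) := by
  refine continuous_pi fun k => ?_
  by_cases h : (k : ℕ) < m
  · simp only [R, h, dif_pos]
    exact continuous_apply _
  · simp only [R, h, dif_neg, not_false_eq_true]
    exact (continuous_half b).comp (continuous_apply 0)

theorem R_zero_zero {m : ℕ} : R (m := m) 0 (fun _ => 0) = fun _ => 0 := by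
  funext k
  by_cases h : (k : ℕ) < m
  · simp [R, h]
  · simp [R, h, half]

theorem R_fixed {m : ℕ} {z : Fin (m + 1) → I} (hz : R 0 z = z) : z = fun _ => 0 := by
  have h1 : ∀ k : ℕ, ∀ hk : k < m + 1, z ⟨k, hk⟩ = z 0 := by
    intro k
    induction k with
    | zero => intro _; rfl
    | succ k ih =>
      intro hk
      have h2 := congrFun hz ⟨k, by omega⟩
      simp only [R] at h2
      rw [dif_pos (by omega)] at h2
      rw [h2, ih]
  have h2 := congrFun hz ⟨m, by omega⟩
  simp only [R, lt_irrefl, dif_neg, not_false_eq_true] at h2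
  rw [h1 m (by omega)] at h2
  have h3 : ((z 0 : I) : ℝ) = 0 := by
    have := congrArg Subtype.val h2
    simp only [half, Set.Icc.coe_zero, add_zero] at this
    linarith
  funext k
  rw [show k = ⟨k.1, k.2⟩ from rfl, h1 k.1 k.2]
  exact Subtype.ext h3

theorem R_cover {m : ℕ} (z : Fin (m + 1) → I) :
    ∃ b : I, (b = 0 ∨ b = 1) ∧ ∃ z' : Fin (m + 1) → I, R b z' = z := by
  obtain ⟨b, hb, w, hw⟩ : ∃ b : I, (b = 0 ∨ b = 1) ∧ ∃ w : I, half b w = z ⟨m, by omega⟩ := by
    rcases le_or_gt ((z ⟨m, by omega⟩ : I) : ℝ) (1 / 2) with h | h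
    · refine ⟨0, Or.inl rfl, ⟨2 * (z ⟨m, by omega⟩ : ℝ), ?_, ?_⟩, ?_⟩
      · have := (z ⟨m, by omega⟩).2.1; linarith
      · linarith
      · apply Subtype.ext
        simp [half]
    · refine ⟨1, Or.inr rfl, ⟨2 * (z ⟨m, by omega⟩ : ℝ) - 1, ?_, ?_⟩, ?_⟩
      · linarith
      · have := (z ⟨m, by omega⟩).2.2; linarith
      · apply Subtype.ext
        simp [half]
  refine ⟨b, hb, fun k => if h : (k : ℕ) = 0 then w else z ⟨k - 1, by omega⟩, ?_⟩
  funext k
  by_cases h : (k : ℕ) < m
  · simp [R, h]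
  · have hk : k = ⟨m, by omega⟩ := Fin.ext (by have := k.2; simp only; omega)
    rw [R, dif_neg h, hk]
    simpa using hw

theorem R_approx {m : ℕ} {F : Set (Fin (m + 1) → I)} (h0 : (fun _ => 0) ∈ F)
    (hR0 : ∀ z ∈ F, R 0 z ∈ F) (hR1 : ∀ z ∈ F, R 1 z ∈ F) (q : ℕ) :
    ∀ z : Fin (m + 1) → I, ∃ f ∈ F, ∀ i : Fin (m + 1),
      |((z i : I) : ℝ) - (f i : I)| ≤ (1 / 2 : ℝ) ^ ((q + i) / (m + 1)) := by
  induction q with
  | zero =>
    intro z
    refine ⟨_, h0, fun i => ?_⟩
    rw [Nat.div_eq_of_lt (by omega), pow_zero]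
    have h1 := (z i).2.1
    have h2 := (z i).2.2
    rw [abs_le]
    constructor <;> simp only [Set.Icc.coe_zero] <;> linarith
  | succ q ih =>
    intro z
    obtain ⟨b, hb, z', rfl⟩ := R_cover z
    obtain ⟨f, hf, hff⟩ := ih z'
    refine ⟨R b f, ?_, fun i => ?_⟩
    · rcases hb with rfl | rfl
      · exact hR0 f hf
      · exact hR1 f hf
    · by_cases h : (i : ℕ) < m
      · simp only [R, h, dif_pos]
        have := hff ⟨i + 1, by omega⟩
        simp only at this
        rwa [show q + 1 + (i : ℕ) = q + ((i : ℕ) + 1) by ring]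
      · simp only [R, h, dif_neg, not_false_eq_true, half]
        have hi : (i : ℕ) = m := by have := i.2; omega
        have h2 : (q + 1 + (i : ℕ)) / (m + 1) = q / (m + 1) + 1 := by
          rw [hi, show q + 1 + m = q + (m + 1) by ring, Nat.add_div_right _ (by omega)]
        rw [h2, pow_succ]
        have h3 := hff 0
        simp only [Fin.val_zero, add_zero] at h3
        rw [show ((z' 0 : ℝ) + b) / 2 - ((f 0 : ℝ) + b) / 2 = ((z' 0 : ℝ) - f 0) * (1 / 2) by ring,
          abs_mul, abs_of_pos (by norm_num : (0 : ℝ) < 1 / 2)]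
        exact mul_le_mul_of_nonneg_right h3 (by norm_num)

theorem R_dense {m : ℕ} {F : Set (Fin (m + 1) → I)} (hF : IsClosed F) (h0 : (fun _ => 0) ∈ F)
    (hR0 : ∀ z ∈ F, R 0 z ∈ F) (hR1 : ∀ z ∈ F, R 1 z ∈ F) : F = univ := by
  rw [eq_univ_iff_forall]
  intro z
  rw [← hF.closure_eq, Metric.mem_closure_iff]
  intro ε hε
  obtain ⟨K, hK⟩ := exists_pow_lt_of_lt_one hε (by norm_num : (1 / 2 : ℝ) < 1)
  obtain ⟨f, hf, hff⟩ := R_approx h0 hR0 hR1 ((m + 1) * K) z
  refine ⟨f, hf, lt_of_le_of_lt ?_ hK⟩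
  rw [dist_pi_le_iff (by positivity)]
  intro i
  refine (hff i).trans ?_
  apply pow_le_pow_of_le_one (by norm_num) (by norm_num)
  rw [Nat.le_div_iff_mul_le (by omega)]
  nlinarith [i.2]

end Pool.Agent.L0h84.DK
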