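import Mathlib
import Pool.Agent.L0h84.DK.NoMap
import Pool.Agent.L0h84.DK.Rigid

/-!
# The two systems
-/

namespace Pool.Agent.L0h84.DK

open Set Equiv unitInterval

/-- the simplex with vertex set `S_4` -/
abbrev X0 : Type := stdSimplex ℝ (Perm (Fin 4))

/-- the index set of the coordinates of the cube -/
abbrev J : Type := Perm (Fin 4) ⊕ (Finset (Fin 4) × Finset (Fin 4))

/-- the cube of dimension 280 -/
abbrev X1 : Type := Fin (279 + 1) → I

theorem card_J : Fintype.card J = 279 + 1 := by
  simp [Fintype.card_perm, Nat.factorial]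

/-- an enumeration of the coordinates -/
noncomputable def enum : J ≃ Fin (279 + 1) := Fintype.equivFinOfCardEq card_J

/-- mass outside of the permutations carrying `D` to `E` -/
noncomputable def out (D E : Finset (Fin 4)) (x : X0) : ℝ :=
  ∑ π : Perm (Fin 4), if D.image π = E then 0 else x.1 π

theorem out_nonneg (D E : Finset (Fin 4)) (x : X0) : 0 ≤ out D E x := by
  refine Finset.sum_nonneg fun π _ => ?_
  split_ifs
  · exact le_rfl
  · exact x.2.1 π

/-- the weight of the pair `(D, E)` -/
noncomputable def gg (D E : Finset (Fin 4)) (x : X0) : I :=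
  ⟨max 0 (1 / 48 - out D E x), le_max_left _ _, by
    have := out_nonneg D E x
    refine max_le zero_le_one ?_
    linarith⟩

theorem continuous_out (D E : Finset (Fin 4)) : Continuous (out D E) := by
  refine continuous_finsetSum _ fun π _ => ?_
  split_ifs
  · exact continuous_const
  · exact (continuous_apply π).comp continuous_subtype_val

theorem continuous_gg (D E : Finset (Fin 4)) : Continuous (gg D E) := by
  refine Continuous.subtype_mk ?_ _
  exact continuous_const.max (continuous_const.sub (continuous_out D E))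

/-- a point of the simplex together with weights -/
noncomputable def mk (x : X0) (w : Finset (Fin 4) × Finset (Fin 4) → I) : X1 := fun k =>
  Sum.elim (fun π => (⟨x.1 π, mem_Icc_of_mem_stdSimplex x.2 π⟩ : I)) w (enum.symm k)

theorem mk_inl (x : X0) (w : Finset (Fin 4) × Finset (Fin 4) → I) (π : Perm (Fin 4)) :
    ((mk x w (enum (Sum.inl π)) : I) : ℝ) = x.1 π := by
  simp [mk]

theorem mk_inr (x : X0) (w : Finset (Fin 4) × Finset (Fin 4) → I)
    (p : Finset (Fin 4) × Finset (Fin 4)) : mk x w (enum (Sum.inr p)) = w p := by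
  simp [mk]

theorem mk_inj {x y : X0} {w w' : Finset (Fin 4) × Finset (Fin 4) → I} (h : mk x w = mk y w') :
    x = y := by
  apply Subtype.ext
  funext π
  rw [← mk_inl x w, ← mk_inl y w', h]

theorem continuous_mk {w : X0 → Finset (Fin 4) × Finset (Fin 4) → I} (hw : Continuous w) :
    Continuous fun x => mk x (w x) := by
  refine continuous_pi fun k => ?_
  unfold mk
  rcases enum.symm k with π | p
  · refine Continuous.subtype_mk ?_ _
    exact (continuous_apply π).comp continuous_subtype_val
  · exact (continuous_apply p).comp hw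

open scoped Classical in
/-- the maps of the first system on the simplex -/
noncomputable def sg (j : Fin 4) (x : X0) : X1 :=
  mk x fun p => if j ∈ p.2 then gg p.1 p.2 x else 0

open scoped Classical in
/-- the maps of the second system on the simplex -/
noncomputable def tg (i : Fin 4) (x : X0) : X1 :=
  mk x fun p => if i ∈ p.1 then gg p.1 p.2 x else 0

theorem continuous_sg (j : Fin 4) : Continuous (sg j) := by
  refine continuous_mk (continuous_pi fun p => ?_)
  split_ifs
  · exact continuous_gg _ _
  · exact continuous_const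

theorem continuous_tg (j : Fin 4) : Continuous (tg j) := by
  refine continuous_mk (continuous_pi fun p => ?_)
  split_ifs
  · exact continuous_gg _ _
  · exact continuous_const

theorem gg_zero {D E : Finset (Fin 4)} {x : X0} {π : Perm (Fin 4)} (hx : 1 / 48 < x.1 π)
    (h : D.image π ≠ E) : gg D E x = 0 := by
  apply Subtype.ext
  have h1 : x.1 π ≤ out D E x := by
    have h2 := Finset.single_le_sum (f := fun π : Perm (Fin 4) =>
      if D.image π = E then 0 else x.1 π) (fun ρ _ => by
        split_ifs
        · exact le_rfl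
        · exact x.2.1 ρ) (Finset.mem_univ π)
    simp only [if_neg h] at h2
    exact h2
  simp only [gg, Set.Icc.coe_zero]
  exact max_eq_left (by linarith)

theorem tg_eq_sg {x : X0} {π : Perm (Fin 4)} (hx : 1 / 48 < x.1 π) (i : Fin 4) :
    tg i x = sg (π i) x := by
  unfold tg sg
  congr 1
  funext p
  by_cases h : p.1.image π = p.2
  · have : i ∈ p.1 ↔ π i ∈ p.2 := by
      rw [← h, Finset.mem_image]
      constructor
      · intro h; exact ⟨i, h, rfl⟩
      · rintro ⟨a, ha, hai⟩
        rwa [← π.injective hai]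
    simp only [this]
  · rw [gg_zero hx h]
    simp

theorem exists_large (x : X0) : ∃ π, 1 / 48 < x.1 π := by
  by_contra h
  push Not at h
  have h1 := x.2.2
  have h2 : ∑ π : Perm (Fin 4), x.1 π ≤ ∑ _π : Perm (Fin 4), (1 / 48 : ℝ) :=
    Finset.sum_le_sum fun π _ => h π
  rw [h1, Finset.sum_const, Finset.card_univ, Fintype.card_perm] at h2
  norm_num [Nat.factorial] at h2

theorem tg_ne_sg {D E : Finset (Fin 4)} {x : X0} (hx : x.1 ∈ Supp {π | D.image π = E})
    {i j : Fin 4} (h : ¬ (i ∈ D ↔ j ∈ E)) : tg i x ≠ sg j x := by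
  intro he
  have h1 : out D E x = 0 := by
    refine Finset.sum_eq_zero fun π _ => ?_
    split_ifs with h2
    · rfl
    · by_contra h3
      exact h2 (hx.2 π h3)
  have h2 : (gg D E x : ℝ) = 1 / 48 := by
    simp only [gg, h1]
    norm_num
  have h3 := congrFun he (enum (Sum.inr (D, E)))
  unfold tg sg at h3
  rw [mk_inr, mk_inr] at h3
  have h4 := congrArg Subtype.val h3
  simp only at h4
  by_cases hi : i ∈ D
  · have hj : j ∉ E := fun hj => h ⟨fun _ => hj, fun _ => hi⟩
    rw [if_pos hi, if_neg hj, h2] at h4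
    norm_num at h4
  · have hj : j ∈ E := by
      by_contra hj
      exact h ⟨fun h => absurd h hi, fun h => absurd h hj⟩
    rw [if_neg hi, if_pos hj, h2] at h4
    norm_num at h4

/-- the labels on the cube -/
noncomputable def bb (j : Fin 4) : I := if j = 3 then 1 else 0

/-- the maps of the first system -/
noncomputable def S (j : Fin 4) : X0 ⊕ X1 → X0 ⊕ X1 :=
  Sum.elim (fun x => Sum.inr (sg j x)) (fun z => Sum.inr (R (bb j) z))

/-- the maps of the second system -/
noncomputable def T (j : Fin 4) : X0 ⊕ X1 → X0 ⊕ X1 :=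
  Sum.elim (fun x => Sum.inr (tg j x)) (fun z => Sum.inr (R (bb j) z))

theorem continuous_S (j : Fin 4) : Continuous (S j) :=
  continuous_sumElim.mpr ⟨continuous_inr.comp (continuous_sg j),
    continuous_inr.comp (continuous_R (bb j))⟩

theorem continuous_T (j : Fin 4) : Continuous (T j) :=
  continuous_sumElim.mpr ⟨continuous_inr.comp (continuous_tg j),
    continuous_inr.comp (continuous_R (bb j))⟩

theorem exists_two (π : Perm (Fin 4)) : ∃ j, j ≠ 3 ∧ π j ≠ 3 := by
  revert π; decide

theorem rigid {δ : X0 ⊕ X1 → X0 ⊕ X1} (hδ : Continuous δ) (hi : Function.Injective δ)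
    (h : ∀ y, ∃ π : Perm (Fin 4), ∀ j, δ (T (π j) y) = S j (δ y)) :
    ∀ y, δ y = y := by
  have h1 : ∀ z : X1, ∃ z' : X1, δ (Sum.inr z) = Sum.inr z' := by
    intro z
    obtain ⟨b, hb, w, rfl⟩ := R_cover z
    obtain ⟨i, hbi⟩ : ∃ i, bb i = b := by
      rcases hb with rfl | rfl
      · exact ⟨0, by simp [bb]⟩
      · exact ⟨3, by simp [bb]⟩
    obtain ⟨π, hπ⟩ := h (Sum.inr w)
    have h2 := hπ (π.symm i)
    rw [Equiv.apply_symm_apply] at h2
    simp only [T, Sum.elim_inr, hbi] at h2
    rw [h2]
    rcases δ (Sum.inr w) with a | a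
    · exact ⟨_, rfl⟩
    · exact ⟨_, rfl⟩
  choose g hg using h1
  have hcomm : ∀ z, g (R 0 z) = R 0 (g z) ∧ g (R 1 z) = R 1 (g z) := by
    intro z
    obtain ⟨π, hπ⟩ := h (Sum.inr z)
    have h2 : ∀ j, g (R (bb (π j)) z) = R (bb j) (g z) := by
      intro j
      have h3 := hπ j
      simp only [T, S, Sum.elim_inr, hg] at h3
      exact Sum.inr_injective h3
    obtain ⟨j, hj1, hj2⟩ := exists_two π
    have h3 := h2 j
    rw [bb, bb, if_neg hj1, if_neg hj2] at h3
    refine ⟨h3, ?_⟩
    by_cases hp : π 3 = 3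
    · have h4 := h2 3
      rw [hp] at h4
      simpa [bb] using h4
    · have h4 := h2 3
      rw [bb, bb, if_neg hp, if_pos rfl] at h4
      have h5 := h2 (π.symm 3)
      rw [Equiv.apply_symm_apply] at h5
      have h6 : π.symm 3 ≠ 3 := by
        intro h7
        apply hp
        conv_lhs => rw [← h7]
        simp
      rw [bb, bb, if_pos rfl, if_neg h6] at h5
      rw [h5, ← h4, h3]
  have hF : {z : X1 | δ (Sum.inr z) = Sum.inr z} = univ := by
    apply R_dense
    · exact isClosed_eq (hδ.comp continuous_inr) continuous_inr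
    · have h2 := (hcomm (fun _ => 0)).1
      rw [R_zero_zero] at h2
      have h3 := R_fixed h2.symm
      change δ (Sum.inr _) = Sum.inr _
      rw [hg, h3]
    · intro z hz
      have hz' : g z = z := Sum.inr_injective ((hg z).symm.trans hz)
      change δ (Sum.inr _) = Sum.inr _
      rw [hg, (hcomm z).1, hz']
    · intro z hz
      have hz' : g z = z := Sum.inr_injective ((hg z).symm.trans hz)
      change δ (Sum.inr _) = Sum.inr _
      rw [hg, (hcomm z).2, hz']
  have h2 : ∀ z : X1, δ (Sum.inr z) = Sum.inr z := fun z =>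
    (Set.eq_univ_iff_forall.mp hF) z
  intro y
  rcases y with x | z
  · rcases hx : δ (Sum.inl x) with x' | z
    · obtain ⟨π, hπ⟩ := h (Sum.inl x)
      have h3 := hπ 0
      rw [hx] at h3
      simp only [T, S, Sum.elim_inl, h2] at h3
      have h4 := Sum.inr_injective h3
      unfold tg sg at h4
      rw [mk_inj h4]
    · exfalso
      have h3 : δ (Sum.inl x) = δ (Sum.inr z) := by rw [hx, h2]
      exact Sum.inl_ne_inr (hi h3)
  · exact h2 z

theorem exists_perm (M : Matrix (Fin 4) (Fin 4) ℂ) (hM : M.det ≠ 0) :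
    ∃ π : Perm (Fin 4), ∀ j, M (π j) j ≠ 0 := by
  by_contra h
  push Not at h
  apply hM
  rw [Matrix.det_apply]
  refine Finset.sum_eq_zero fun ρ _ => ?_
  obtain ⟨j, hj⟩ := h ρ
  have h0 : ∏ i, M (ρ i) i = 0 := Finset.prod_eq_zero (Finset.mem_univ j) hj
  rw [h0, smul_zero]

theorem no_equiv {δ : X0 ⊕ X1 → X0 ⊕ X1} (hδ : Continuous δ) (hi : Function.Injective δ)
    (u : X0 ⊕ X1 → Matrix (Fin 4) (Fin 4) ℂ) (hu : ∀ i j, Continuous fun y => u y i j)
    (hdet : ∀ y, (u y).det ≠ 0)
    (h : ∀ y i j, u y i j ≠ 0 → δ (T i y) = S j (δ y)) : False := by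
  classical
  have hid : ∀ y, δ y = y := by
    apply rigid hδ hi
    intro y
    obtain ⟨π, hπ⟩ := exists_perm (u y) (hdet y)
    exact ⟨π, fun j => h y _ _ (hπ j)⟩
  refine no_data
    { u := fun x => if hx : x ∈ stdSimplex ℝ (Perm (Fin 4)) then u (Sum.inl ⟨x, hx⟩) else 1
      cont := ?_
      det_ne := ?_
      pat := ?_ }
  · intro i j
    rw [continuousOn_iff_continuous_domRestrict]
    have : (stdSimplex ℝ (Perm (Fin 4))).domRestrict (fun x =>
        (if hx : x ∈ stdSimplex ℝ (Perm (Fin 4)) then u (Sum.inl ⟨x, hx⟩) else 1) i j) =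
        fun x => u (Sum.inl x) i j := by
      funext x
      simp [Set.domRestrict]
    rw [this]
    exact (hu i j).comp continuous_inl
  · intro x hx
    simp only [dif_pos hx]
    exact hdet _
  · intro D E x hx i j hij
    simp only [dif_pos hx.1]
    by_contra hne
    have h1 := h _ _ _ hne
    rw [hid, hid] at h1
    simp only [T, S, Sum.elim_inl] at h1
    exact tg_ne_sg (x := ⟨x, hx.1⟩) hx hij (Sum.inr_injective h1)

end Pool.Agent.L0h84.DK
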